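import Mathlib
import Pool.Agent.TH170.QD.Use
import Pool.Agent.TH170.CM.Family

/-!
# The noncommutative Hodge conjecture for admissible subcategories generated by abelian varieties of
almost all CM types of arbitrary CM fields

Let `E` be a CM field of degree `2 g`; nothing is assumed about its Galois group. The automorphisms
of `ℂ` act on the set of the `2 g` complex embeddings of `E` through a finite group `G` (the Galois
group of the normal closure), and so on the space `V`, of dimension `g`, of the rational functions
on this set that change their sign under complex conjugation. There are `2 ^ g` CM types of `E`.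
Let `E i` be finitely many CM fields, of degrees `2 g i`, that are pairwise independent: for `i ≠ k`
and all complex embeddings `φ` of `E i` and `ψ` of `E k` some automorphism of `ℂ` is the identity on
`φ (E i)` and the complex conjugation on `ψ (E k)` (this is no condition for one field). There are
`2 ^ (∑ i, g i)` families `Φ` of CM types `Φ i` of the fields `E i`.

We call the family `Φ` exceptional if the noncommutative Hodge conjecture fails for some smooth proper
dg category `𝒜` over `ℂ` (for instance an admissible subcategory of the category of perfect complexes on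
a smooth proper variety `X`) whose noncommutative motive is a direct summand of a finite sum of those of
products of powers of the abelian varieties `A i` of CM type `(E i, Φ i)` (`IsGenerated`,
`IsSummand`). This is
satisfied by all admissible subcategories for all smooth projective varieties `X` whose Chow motive is
a direct summand of a finite sum of twists of motives of such products (the products themselves, the
products and symmetric powers of curves, and the moduli spaces of vector bundles on curves, whose
Jacobians are isogenous to such products, and so on), and for their Fourier-Mukai partners.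

The category `𝒜` is described by `K = K_0(𝒜)_ℚ`, by `Top = K_0^top(𝒜)_ℚ`, the natural map `ch` and the
Hodge classes (`DGCategory`). The product `B = ∏ j, A (t j)`, `j : J`, is described by its tangent space
`Tan Φ t` and its rational homology `∏ j, E (t j)`, mapped to the tangent space by the embeddings in the
CM types (`per Φ t`). Its topological K-theory with rational coefficients is the product of the spaces of
the rational cohomology classes of even degree, that is, of alternating forms (`Top`); an element is a
Hodge class if all its components are (`IsHodgeClass`). The only property of `K_0(B)` that is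
used is that the wedge products of rational Hodge classes of degree two are Chern characters
(`IsKTheory`: Lefschetz theorem on (1,1)-classes, logarithms and products of classes of line bundles).

The theorem bounds the number of the exceptional families: it is at most
`2 ^ (∑ i, g i) * ∑ i, ρ (E i)`, where `ρ (E)` (`rho g φ₀`) is the sum of the numbers `w (W)`
(`weight g φ₀ W`) over the isotypic components `W` of `V` (`components E`):

* `w (W) = 0` if every minimal Galois-stable space in `W` contains a function with integral values
  whose sum over a CM type is odd;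
* otherwise `w (W) = (2 d / (π g)) ^ (d / 2)` if `W` is itself a minimal space, of dimension `d`;
* otherwise `w (W)` is the smaller of `(53 λ d / g) ^ (c / 2)` (if
  `(10 ^ 4 + 10 λ) ^ 2 λ d ≤ 2 g`; replaced by `1` if not) and
  `8 (2 d / (π g)) ^ (d / 2) (10 ^ 4 + 10 λ + 6 √(d g)) ^ (d - c)`. Here `λ = log |G|`,
  `d = dim S` for the minimal spaces `S` in `W`, and `c = e + d - h`, where `e` is the dimension of
  the space of the equivariant endomorphisms of `S` and `h` the dimension of the space of the
  functions in `S` that are invariant under the stabilizer of a complex embedding.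

(If `S` is over `ℂ` the sum of `r` conjugate representations of degree `n` with the Schur index `m`,
which occur in `V` with the multiplicity `μ`, then `d = m r n`, `h = m r μ`, `e = m ^ 2 r`, and
`c = m r (n - μ + m)` is the codimension of the set of the degenerate elements. If `E` is normal
over `ℚ` then `μ = n` and `c = e = m ^ 2 r`.)

Let `Q` be the number of the imaginary quadratic subfields of `E` and `N d` the number of the
components `W` that are minimal spaces of dimension `d`. The second part (`RhoEstimate`) is the
estimate `ρ (E) ≤ Q / √g + 2 (N 2 + 1) / g + 3 N 3 / g ^ (3 / 2) + ∑ w (W)`, where the last sum is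
over the components `W` which are not minimal, and the term `Q / √g` is omitted if `g` is odd. The
third part (`NoMultipleComponents`) says that there are no such components if `E` is abelian over
`ℚ`, or if any two complex embeddings of `E` are exchanged by some automorphism of `ℂ` (for instance
`E = k F` for an imaginary quadratic field `k` and a totally real field `F` with this property, such
as the fields of degree `binomial (n, m)` which belong to the sets with `m` elements of roots of a
polynomial of degree `n` with real roots and Galois group `S_n`). Always `N 3 ≤ g / 3`; if `E` is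
cyclic over `ℚ` then `g` is odd or `Q = 0`, and `N 2 ≤ 2`, `N 3 = 0`, `ρ (E) ≤ 6 / g`.

The proof: the sign function of a degenerate CM type is orthogonal to a minimal Galois-stable space.
The number of the sign functions orthogonal to one space is estimated by a Fourier integral and the
inequality of Hölder. There are in general infinitely many minimal spaces isomorphic to `S`, but
modulo a prime number `p` that does not divide `|G|` there are only about `p ^ (h - e)` of them.
-/

namespace Pool.Agent.Results.MP_43e44c_ag.AlmostAllCMTypes

open NumberField Module Pool.Agent.H204R3.CM Pool.Agent.H977R3.CM Pool.Agent.TH170.CM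
  Pool.Agent.TH170.MF Pool.Agent.TH170.QD

/-- A smooth proper dg category `𝒜` over `ℂ`: `K` is `K_0(𝒜)`, `Top` is the topological K-theory
`K_0^top(𝒜)`, both with rational coefficients, `ch` is the natural map and `hdg` the set of the rational
Hodge classes. -/
structure DGCategory where
  K : Type
  Top : Type
  [groupK : AddCommGroup K]
  [moduleK : Module ℚ K]
  [groupTop : AddCommGroup Top]
  [moduleTop : Module ℚ Top]
  ch : K →ₗ[ℚ] Top
  hdg : Set Top

attribute [instance] DGCategory.groupK DGCategory.moduleK DGCategory.groupTop DGCategory.moduleTop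

/-- The rational cohomology of even degree (by the Chern character this is the topological K-theory with
rational coefficients) of the product of the abelian varieties of CM type `(E (t j), Φ (t j))`, `j : J`:
families of alternating forms of degree `2 m`, for all `m`. -/
def Top {ι : Type} (E : ι → Type) [∀ i, Field (E i)] [∀ i, NumberField (E i)] {J : Type}
    (t : J → ι) : Type :=
  ∀ m : ℕ, (∀ j, E (t j)) [⋀^Fin m × Fin 2]→ₗ[ℚ] ℚ

noncomputable instance {ι : Type} (E : ι → Type) [∀ i, Field (E i)] [∀ i, NumberField (E i)]
    {J : Type} (t : J → ι) : AddCommGroup (Top E t) :=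
  inferInstanceAs (AddCommGroup (∀ m : ℕ, (∀ j, E (t j)) [⋀^Fin m × Fin 2]→ₗ[ℚ] ℚ))

noncomputable instance {ι : Type} (E : ι → Type) [∀ i, Field (E i)] [∀ i, NumberField (E i)]
    {J : Type} (t : J → ι) : Module ℚ (Top E t) :=
  inferInstanceAs (Module ℚ (∀ m : ℕ, (∀ j, E (t j)) [⋀^Fin m × Fin 2]→ₗ[ℚ] ℚ))

/-- A product `B = ∏ j, A (t j)`, `j : J`, of abelian varieties with complex multiplication by the
fields `E (t j)`, and its K-theory `K = K_0(B)_ℚ` with the Chern character `ch`. -/
structure CMProduct {ι : Type} (E : ι → Type) [∀ i, Field (E i)] [∀ i, NumberField (E i)] where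
  J : Type
  t : J → ι
  K : Type
  [fin : Fintype J]
  [groupK : AddCommGroup K]
  [moduleK : Module ℚ K]
  ch : K →ₗ[ℚ] Top E t

attribute [instance] CMProduct.fin CMProduct.groupK CMProduct.moduleK

variable {ι : Type} {E : ι → Type} [∀ i, Field (E i)] [∀ i, NumberField (E i)]

/-- The component of degree `2 m` of `x` is `g`, and all other components are zero. -/
def IsSingle {J : Type} {t : J → ι} (x : Top E t) (m : ℕ)
    (g : (∀ j, E (t j)) [⋀^Fin m × Fin 2]→ₗ[ℚ] ℚ) : Prop :=
  x m = g ∧ ∀ n, n ≠ m → x n = 0

/-- The only component of the Chern character of some element of `K_0(B)_ℚ` is `g`, in degree `2 m`. -/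
def IsChern (B : CMProduct E) (m : ℕ) (g : (∀ j, E (B.t j)) [⋀^Fin m × Fin 2]→ₗ[ℚ] ℚ) : Prop :=
  ∃ x, IsSingle (B.ch x) m g

/-- The wedge products of rational Hodge classes of degree two on `B`, for the CM types `Φ i`, are Chern
characters (of elements of `K_0(B)_ℚ`). -/
def IsKTheory (Φ : ∀ i, Set (E i →+* ℂ)) (B : CMProduct E) : Prop :=
  ∀ m : ℕ, ∀ g ∈ wedgeSet (per Φ B.t) m, IsChern B m g

/-- A Hodge class in the topological K-theory of `B`: all its components are Hodge classes. -/
def IsHodgeClass (Φ : ∀ i, Set (E i →+* ℂ)) (B : CMProduct E) (x : Top E B.t) : Prop :=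
  ∀ m, IsHodge (per Φ B.t) (x m)

/-- The noncommutative motive of `𝒜` is a direct summand of the sum of the noncommutative motives of
the products `B l` of the abelian varieties of the CM types `Φ i`: `i l` and `r l` are induced by
morphisms of noncommutative motives (elements of `K_0` of categories of bimodules), which act on `K_0`,
`K_0^top` and preserve the Hodge classes. -/
def IsSummand (Φ : ∀ i, Set (E i →+* ℂ)) (𝒜 : DGCategory) {L : Type} [Fintype L]
    (B : L → CMProduct E) : Prop :=
  ∃ (i : ∀ l, 𝒜.Top →ₗ[ℚ] Top E (B l).t) (r : ∀ l, Top E (B l).t →ₗ[ℚ] 𝒜.Top)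
    (r' : ∀ l, (B l).K →ₗ[ℚ] 𝒜.K), (∀ x ∈ 𝒜.hdg, ∀ l, IsHodgeClass Φ (B l) (i l x)) ∧
      (∀ l x, 𝒜.ch (r' l x) = r l ((B l).ch x)) ∧ ∀ x, ∑ l, r l (i l x) = x

/-- The noncommutative motive of `𝒜` is a direct summand of a finite sum of noncommutative motives of
products of powers of the abelian varieties of the CM types `Φ i`. -/
def IsGenerated (Φ : ∀ i, Set (E i →+* ℂ)) (𝒜 : DGCategory) : Prop :=
  ∃ (L : Type) (_ : Fintype L) (B : L → CMProduct E),
    (∀ l, IsKTheory Φ (B l)) ∧ IsSummand Φ 𝒜 B

/-- The noncommutative Hodge conjecture for all smooth proper dg categories generated by the abelian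
varieties of the CM types `Φ i`: the map `K_0(𝒜)_ℚ → Hdg(𝒜, ℚ)` is surjective. -/
def Holds (Φ : ∀ i, Set (E i →+* ℂ)) : Prop :=
  ∀ 𝒜 : DGCategory, IsGenerated Φ 𝒜 → ∀ x ∈ 𝒜.hdg, ∃ k, 𝒜.ch k = x

/-- The families of CM types `Φ i` of the fields `E i` such that the noncommutative Hodge conjecture
fails for some smooth proper dg category generated by the abelian varieties of the CM types `Φ i`. -/
def exceptionalFamilies (E : ι → Type) [∀ i, Field (E i)] [∀ i, NumberField (E i)] :
    Set (∀ i, Set (E i →+* ℂ)) :=
  {Φ | (∀ i, IsCMType (Φ i)) ∧ ¬ Holds Φ}

/-- Alternating forms of large degree vanish. -/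
theorem form_eq_zero {W : Type} [AddCommGroup W] [Module ℚ W] [FiniteDimensional ℚ W] (m : ℕ)
    (hm : finrank ℚ W < m) (f : W [⋀^Fin m × Fin 2]→ₗ[ℚ] ℚ) : f = 0 := by
  ext v
  refine AlternatingMap.map_linearDependent f v fun h => ?_
  have h1 := h.fintype_card_le_finrank
  rw [Fintype.card_prod, Fintype.card_fin, Fintype.card_fin] at h1
  omega

theorem holds_of (Φ : ∀ i, Set (E i →+* ℂ))
    (h : ∀ (J : Type) [Fintype J] (t : J → ι), HodgeGenerated (per Φ t)) : Holds Φ := by
  intro 𝒜 h𝒜 x hx
  obtain ⟨L, _, B, h1, i, r, r', h2, h3, h4⟩ := h𝒜
  have key : ∀ l, ∃ k, (B l).ch k = i l x := by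
    intro l
    have hs : ∀ m : ℕ, ∃ k, (B l).ch k m = i l x m ∧ ∀ n, n ≠ m → (B l).ch k n = 0 := by
      intro m
      have h5 := h (B l).J (B l).t m (i l x m) (h2 x hx l m)
      refine Submodule.span_induction
        (p := fun g _ => ∃ k, (B l).ch k m = g ∧ ∀ n, n ≠ m → (B l).ch k n = 0) ?_ ?_ ?_ ?_ h5
      · exact fun g hg => h1 l m g hg
      · exact ⟨0, by rw [map_zero]; rfl, fun n _ => by rw [map_zero]; rfl⟩
      · rintro f g - - ⟨a, ha, ha'⟩ ⟨b, hb, hb'⟩
        refine ⟨a + b, ?_, fun n hn => ?_⟩
        · rw [map_add]
          exact congrArg₂ (· + ·) ha hb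
        · rw [map_add]
          exact (congrArg₂ (· + ·) (ha' n hn) (hb' n hn)).trans (add_zero _)
      · rintro c f - ⟨a, ha, ha'⟩
        refine ⟨c • a, ?_, fun n hn => ?_⟩
        · rw [map_smul]
          exact congrArg (c • ·) ha
        · rw [map_smul]
          exact (congrArg (c • ·) (ha' n hn)).trans (smul_zero _)
    choose k hk hk' using hs
    have hfin : FiniteDimensional ℚ (∀ j, E ((B l).t j)) := inferInstance
    refine ⟨∑ m ∈ Finset.range (finrank ℚ (∀ j, E ((B l).t j)) + 1), k m, ?_⟩
    rw [map_sum]
    funext n
    have h7 : (∑ m ∈ Finset.range (finrank ℚ (∀ j, E ((B l).t j)) + 1), (B l).ch (k m)) n =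
        ∑ m ∈ Finset.range (finrank ℚ (∀ j, E ((B l).t j)) + 1), (B l).ch (k m) n :=
      Finset.sum_apply n _ _
    rw [h7]
    by_cases hn : n < finrank ℚ (∀ j, E ((B l).t j)) + 1
    · rw [Finset.sum_eq_single n, hk]
      · intro m _ hmn
        exact hk' m n (Ne.symm hmn)
      · intro hn'
        exact absurd (Finset.mem_range.2 hn) hn'
    · rw [form_eq_zero n (by omega) (i l x n)]
      refine Finset.sum_eq_zero fun m hm => ?_
      refine hk' m n ?_
      intro h6
      rw [Finset.mem_range] at hm
      omega
  choose k hk using key
  refine ⟨∑ l, r' l (k l), ?_⟩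
  rw [map_sum]
  refine (Finset.sum_congr rfl fun l _ => ?_).trans (h4 x)
  rw [h3, hk]

/-- **The noncommutative Hodge conjecture for all dg categories generated by abelian varieties of almost
all CM types of CM fields.** -/
theorem result :
    (∀ {ι : Type} [Fintype ι] (E : ι → Type) [∀ i, Field (E i)] [∀ i, NumberField (E i)]
      [∀ i, IsCMField (E i)] (g : ι → ℕ) (φ₀ : ∀ i, E i →+* ℂ), PairwiseIndep E →
      (∀ i, finrank ℚ (E i) = 2 * g i) →
      ((exceptionalFamilies E).ncard : ℝ) ≤ 2 ^ (∑ i, g i) * ∑ i, rho (g i) (φ₀ i)) ∧
    RhoEstimate ∧ NoMultipleComponents := by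
  refine ⟨fun E _ _ _ g φ₀ hE hg => ncard_families_le E hg φ₀ (fun Φ => Holds Φ) ?_, rho_bounds⟩
  intro Φ hΦ hnd
  exact holds_of Φ fun J _ t => hodge_of_not_degenerate hΦ hE hnd t

end Pool.Agent.Results.MP_43e44c_ag.AlmostAllCMTypes
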