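import Pool.Agent.TH487.Emb.Basic

/-!
The noncommutative Hodge conjecture for all admissible subcategories of the powers of cubic
fourfolds and Gushel-Mukai varieties with transcendental rank at most five.
-/

set_option autoImplicit false

namespace Pool.Agent.Results.MP_43e44c_ag.PowersRankFive

open Pool.Agent.TH487.Emb

/-- Complex smooth projective varieties.  `IsKThree`: K3 surfaces (with `H²`); `HasKThreeCategory`:
cubic fourfolds and Gushel-Mukai varieties of dimension 4 or 6 (with the middle cohomology).
`t X`: dimension of the transcendental part `T(X)`; `transcendental X`: its form in a basis, with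
the sign for which it has signature `(2, t - 2)`; `algebraic X`: the rational algebraic part `N(X)`
of the Mukai lattice of `Ku(X)`.  `Linked X S`: `Ku(X)` is equivalent to the category of twisted
sheaves on `S` for some Brauer class.  `In W Z`: the homological motive of `W` lies in the thick
tensor subcategory generated by that of `Z`.  `HodgeForPowers X`: the rational Hodge conjecture for
all powers of `X`.  `Cat`: admissible subcategories of the `D^perf(W)`, `W` smooth projective;
`SubcategoryOf C X`: `C` is an admissible subcategory of `D^perf(Xⁿ)` for some `n`;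
`NCHodge C`: `K₀(C) ⊗ ℚ → Hdg(C, ℚ)` is surjective. -/
structure Varieties where
  Var : Type
  IsKThree : Var → Prop
  HasKThreeCategory : Var → Prop
  t : Var → ℕ
  transcendental : ∀ X, LinearMap.BilinForm ℚ (Fin (t X) → ℚ)
  algebraic : ∀ X, LinearMap.BilinForm ℚ (Fin (24 - t X) → ℚ)
  Linked : Var → Var → Prop
  In : Var → Var → Prop
  HodgeForPowers : Var → Prop
  Cat : Type
  SubcategoryOf : Cat → Var → Prop
  NCHodge : Cat → Prop

variable (M : Varieties)

/-- The Hodge-Riemann relations: `T(X)` has signature `(2, t - 2)` and `N(X)` has signature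
`(2, 22 - t)`. -/
def Varieties.HodgeRiemann : Prop :=
  (∀ X, M.IsKThree X ∨ M.HasKThreeCategory X → HasSignature (M.transcendental X) (M.t X)) ∧
  ∀ X, M.HasKThreeCategory X → M.t X ≤ 22 ∧ HasSignature (M.algebraic X) (24 - M.t X)

/-- The Hodge conjecture for all powers of the K3 surfaces with `T(S)` in `U ⊕ U ⊕ U ⊕ ⟨-a⟩`. -/
def Varieties.EmbeddingTheorem : Prop :=
  ∀ S, M.IsKThree S → ∀ a : ℚ, 0 < a → EmbedsIn (M.transcendental S) a → M.HodgeForPowers S

/-- If `N(X)` is isotropic, `Ku(X)` is a category of twisted sheaves on a K3 surface `S`; the kernel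
of the equivalence gives an isometry `T(X) ≅ T(S)` of Hodge structures, algebraic with its inverse,
so that `h(X) ∈ ⟨h(S)⟩`. -/
def Varieties.TwistedKThree : Prop :=
  (∀ X, M.HasKThreeCategory X → (∃ v, v ≠ 0 ∧ M.algebraic X v v = 0) →
    ∃ S, M.IsKThree S ∧ M.Linked X S) ∧
  ∀ X S, M.Linked X S → Isometric (M.transcendental X) (M.transcendental S) ∧ M.In X S

/-- If `h(W) ∈ ⟨h(Z)⟩`, the Hodge conjecture passes from the powers of `Z` to those of `W`. -/
def Varieties.HodgePasses : Prop :=
  ∀ W Z, M.In W Z → M.HodgeForPowers Z → M.HodgeForPowers W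

/-- The Hodge conjecture for `Xⁿ` gives the noncommutative one for `D^perf(Xⁿ)` and for all its
admissible subcategories (recorded in the problem file). -/
def Varieties.Commutative : Prop :=
  ∀ C X, M.SubcategoryOf C X → M.HodgeForPowers X → M.NCHodge C

/-- **The noncommutative Hodge conjecture for transcendental rank at most five.**  For every cubic
fourfold or Gushel-Mukai variety `X` of dimension 4 or 6 with `T(X)` of rank at most five (for cubic
fourfolds: `H^{2,2}(X) ∩ H⁴(X, ℤ)` of rank `≥ 18`) and every `W` with `h(W) ∈ ⟨h(X)⟩`, the Hodge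
conjecture holds for all powers of `W`, and the noncommutative Hodge conjecture holds for every
admissible subcategory of `D^perf(Wⁿ)`, `n ≥ 1`. -/
theorem result (hM : Meyer) (h1 : M.HodgeRiemann) (h2 : M.EmbeddingTheorem)
    (h3 : M.TwistedKThree) (h4 : M.HodgePasses) (h5 : M.Commutative)
    (X : M.Var) (hX : M.IsKThree X ∨ M.HasKThreeCategory X) (ht : M.t X ≤ 5) :
    (M.HodgeForPowers X ∧ ∀ C, M.SubcategoryOf C X → M.NCHodge C) ∧
    ∀ W, M.In W X → M.HodgeForPowers W ∧ ∀ C, M.SubcategoryOf C W → M.NCHodge C := by
  have key : M.HodgeForPowers X := by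
    obtain ⟨a, ha, h⟩ := embed_all hM (M.transcendental X) (M.t X) ht (h1.1 X hX)
    rcases hX with hX | hX
    · exact h2 X hX a ha h
    · obtain ⟨hle, hs⟩ := h1.2 X hX
      obtain ⟨v, hv, hv'⟩ := isotropic hM (M.algebraic X) (24 - M.t X) (by omega) hs
      obtain ⟨S, hS, hL⟩ := h3.1 X hX ⟨v, hv, hv'⟩
      obtain ⟨hiso, hin⟩ := h3.2 X S hL
      exact h4 X S hin (h2 S hS a ha (hiso.embedsIn h))
  refine ⟨⟨key, fun C hC => h5 C X hC key⟩, fun W hW => ?_⟩
  have hW' := h4 W X hW key
  exact ⟨hW', fun C hC => h5 C W hC hW'⟩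

end Pool.Agent.Results.MP_43e44c_ag.PowersRankFive
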